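import Mathlib

/-! Pairs of graphs given by bits (helper329): definitions. -/

set_option autoImplicit false

namespace Pool.Agent.Q329.GT

/-- The pairs of different vertices. -/
abbrev Edge (n : ℕ) : Type := {e : Sym2 (Fin n) // ¬ e.IsDiag}

/-- The positions: the pairs of different vertices of the first graph (`false`) and of the second
graph (`true`). -/
abbrev Position (n : ℕ) : Type := Bool × Edge n

/-- The graph number `k` with the adjacency bits `x`. -/
def graph {n : ℕ} (x : Position n → Bool) (k : Bool) : SimpleGraph (Fin n) :=
  SimpleGraph.fromEdgeSet {e | ∃ h : ¬ e.IsDiag, x (k, ⟨e, h⟩) = true}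

/-- The two graphs are isomorphic. -/
def Isomorphic {n : ℕ} (x : Position n → Bool) : Prop := Nonempty (graph x false ≃g graph x true)

/-- The number of errors of the bijection `σ`: the pairs of different vertices that are adjacent in
the first graph while their images are not adjacent in the second graph, or the other way around. -/
noncomputable def errors {n : ℕ} (x : Position n → Bool) (σ : Equiv.Perm (Fin n)) : ℕ :=
  {e : Sym2 (Fin n) | ¬ (e ∈ (graph x false).edgeSet ↔ Sym2.map σ e ∈ (graph x true).edgeSet)}.ncard

/-- Every bijection makes at least `(1 / 4 - ε) n ^ 2` errors. -/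
def Far {n : ℕ} (ε : ℝ) (x : Position n → Bool) : Prop :=
  ∀ σ : Equiv.Perm (Fin n), (1 / 4 - ε) * (n : ℝ) ^ 2 ≤ errors x σ

end Pool.Agent.Q329.GT
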