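import Pool.Agent.Q329.GT.Mix
import Pool.Agent.TH700.PA.Count

/-! Tensor networks for the robust graph isomorphism problem (helper329). -/

set_option autoImplicit false
set_option linter.unusedSectionVars false
set_option linter.unusedVariables false

open Finset Pool.Agent.TH700.PA Filter

namespace Pool.Agent.Q329.GT

section part

variable {K V Al W : Type} [Fintype V] [DecidableEq V]

open Classical in
/-- The partition of a network. -/
lemma net_part [Field K] [Fintype W] [Nonempty W] (T : Net K V Al W) (a : W → K)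
    (h1 : ∀ v, T.reads v ≤ 1) {θ t : ℕ} (hθ : 1 ≤ θ) (hE : 2 * Fintype.card V + θ ≤ θ * t) :
    ∃ p : V → Fin t, (∀ j, (univ.filter (fun v => p v = j)).card ≤ 2 * θ) ∧
      ∀ j, Rk (Fintype.card W ^ 3) (fun x => T.value a x) (univ.filter (fun v => p v = j)) := by
  obtain ⟨w, hw⟩ : ∃ w, w = Fintype.card W := ⟨_, rfl⟩
  have hw1 : 1 ≤ w := by
    rw [hw]
    exact Fintype.card_pos
  obtain ⟨T', g1, g2, -⟩ := exists_ext T h1
  have hval : ∀ x, T'.value a x = T.value a x := by
    intro x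
    unfold Net.value
    rw [g2]
  have hR : ∀ A ∈ cutsv T', Rk w (fun x => T.value a x) A := by
    intro A hA
    have h2 := rk_of_cut (cutsv_cut T' a (fun v => (g1 v).le) A hA)
    have h3 : (fun x => T'.value a x) = fun x => T.value a x := funext hval
    rwa [h3, ← hw] at h2
  obtain ⟨P, q1, q2, q3⟩ := exists_parts hw1 (univ : Finset V) hθ T' g1 hR (by rwa [card_univ])
  choose p hp using q3
  have hpP : ∀ j, univ.filter (fun v => p v = j) = P j := by
    intro j
    ext v
    rw [mem_filter]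
    constructor
    · rintro ⟨-, h⟩
      rw [← h]
      exact hp v
    · intro hv
      refine ⟨mem_univ v, ?_⟩
      by_contra hne
      exact disjoint_left.1 (q2 _ _ hne) (hp v) hv
  refine ⟨p, fun j => ?_, fun j => ?_⟩
  · rw [hpP]
    have := (q1 j).2.2
    rwa [univ_inter] at this
  · rw [hpP]
    have h2 := (q1 j).2.1
    have h3 : w * (w * w) = Fintype.card W ^ 3 := by rw [← hw]; ring
    rwa [h3] at h2

end part

variable {n t : ℕ}

lemma act_mul (τ π : Equiv.Perm (Fin n)) (e : Edge n) : act (τ * π) e = act τ (act π e) := by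
  apply Subtype.ext
  show Sym2.map (τ * π) e.1 = Sym2.map τ (Sym2.map π e.1)
  rw [Sym2.map_map]
  rfl

/-- The symmetric group is transitive on the pairs. -/
lemma act_trans (e e' : Edge n) : ∃ τ : Equiv.Perm (Fin n), act τ e = e' := by
  obtain ⟨e, he⟩ := e
  obtain ⟨e', he'⟩ := e'
  induction e with
  | _ a b =>
    induction e' with
    | _ c d =>
      rw [Sym2.mk_isDiag_iff] at he he'
      obtain ⟨b', hb'⟩ : ∃ b', b' = Equiv.swap a c b := ⟨_, rfl⟩
      have h1 : b' ≠ c := by
        rw [hb']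
        intro h
        have h2 : Equiv.swap a c b = Equiv.swap a c a := by rw [h, Equiv.swap_apply_left]
        exact he ((Equiv.swap a c).injective h2).symm
      refine ⟨Equiv.swap b' d * Equiv.swap a c, ?_⟩
      apply Subtype.ext
      show s((Equiv.swap b' d * Equiv.swap a c) a, (Equiv.swap b' d * Equiv.swap a c) b) = s(c, d)
      rw [Equiv.Perm.mul_apply, Equiv.Perm.mul_apply, Equiv.swap_apply_left, ← hb',
        Equiv.swap_apply_left, Equiv.swap_apply_of_ne_of_ne h1.symm he']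

open Classical in
lemma count_act (e e' : Edge n) :
    Fintype.card (Edge n) * (univ.filter fun π : Equiv.Perm (Fin n) => act π e = e').card =
      n.factorial := by
  have h1 : ∀ e'' : Edge n, (univ.filter fun π : Equiv.Perm (Fin n) => act π e = e'').card =
      (univ.filter fun π : Equiv.Perm (Fin n) => act π e = e').card := by
    intro e''
    obtain ⟨τ, hτ⟩ := act_trans e'' e'
    refine card_bij (fun π _ => τ * π) ?_ ?_ ?_
    · intro π hπ
      rw [mem_filter] at hπ ⊢
      refine ⟨mem_univ _, ?_⟩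
      rw [act_mul, hπ.2, hτ]
    · intro π _ π' _ h
      exact mul_left_cancel h
    · intro π hπ
      rw [mem_filter] at hπ
      refine ⟨τ⁻¹ * π, ?_, by group⟩
      rw [mem_filter]
      refine ⟨mem_univ _, (act τ).injective ?_⟩
      rw [← act_mul, hτ]
      have : τ * (τ⁻¹ * π) = π := by group
      rw [this]
      exact hπ.2
  have h2 : ∑ e'' : Edge n, (univ.filter fun π : Equiv.Perm (Fin n) => act π e = e'').card =
      Fintype.card (Equiv.Perm (Fin n)) := by
    rw [← card_univ, ← card_biUnion]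
    · congr 1
      ext π
      simp
    · intro x _ y _ hxy
      rw [Function.onFun, disjoint_left]
      intro π hx hy
      rw [mem_filter] at hx hy
      exact hxy (hx.2.symm.trans hy.2)
  rw [Fintype.card_perm, Fintype.card_fin] at h2
  rw [← h2, sum_congr rfl fun e'' _ => h1 e'', sum_const, card_univ, smul_eq_mul]

open Classical in
/-- The average number of coincidences. -/
lemma sum_coinc (p : Position n → Fin t) {θ : ℕ}
    (hp : ∀ j, (univ.filter (fun v => p v = j)).card ≤ 2 * θ) :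
    ∑ π : Equiv.Perm (Fin n), (coinc p π).card ≤ n.factorial * (2 * θ) := by
  rcases Nat.eq_zero_or_pos (Fintype.card (Edge n)) with h0 | h0
  · have h1 : ∀ π : Equiv.Perm (Fin n), (coinc p π).card = 0 := by
      intro π
      have := card_le_univ (coinc p π)
      omega
    simp [h1]
  · have h1 : ∑ π : Equiv.Perm (Fin n), (coinc p π).card =
        ∑ e : Edge n, ∑ e' : Edge n, if p (false, e) = p (true, e') then
          (univ.filter fun π : Equiv.Perm (Fin n) => act π e = e').card else 0 := by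
      have h2 : ∀ π : Equiv.Perm (Fin n), (coinc p π).card = ∑ e : Edge n, ∑ e' : Edge n,
          if p (false, e) = p (true, e') then (if act π e = e' then 1 else 0) else 0 := by
        intro π
        unfold coinc
        rw [card_filter]
        refine sum_congr rfl fun e _ => ?_
        rw [sum_eq_single (act π e)]
        · simp
        · intro e' _ hne
          rw [if_neg (Ne.symm hne)]
          simp
        · intro h
          exact absurd (mem_univ _) h
      rw [sum_congr rfl fun π _ => h2 π, sum_comm]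
      refine sum_congr rfl fun e _ => ?_
      rw [sum_comm]
      refine sum_congr rfl fun e' _ => ?_
      split_ifs with h
      · rw [card_filter]
      · simp
    have h3 : Fintype.card (Edge n) * ∑ π : Equiv.Perm (Fin n), (coinc p π).card ≤
        Fintype.card (Edge n) * (n.factorial * (2 * θ)) := by
      rw [h1, mul_sum]
      calc ∑ e : Edge n, Fintype.card (Edge n) * ∑ e' : Edge n, (if p (false, e) = p (true, e') then
          (univ.filter fun π : Equiv.Perm (Fin n) => act π e = e').card else 0) ≤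
          ∑ _e : Edge n, n.factorial * (2 * θ) := by
            refine sum_le_sum fun e _ => ?_
            rw [mul_sum]
            have h4 : ∀ e' : Edge n, Fintype.card (Edge n) * (if p (false, e) = p (true, e') then
                (univ.filter fun π : Equiv.Perm (Fin n) => act π e = e').card else 0) =
                if p (false, e) = p (true, e') then n.factorial else 0 := by
              intro e'
              split_ifs
              · exact count_act e e'
              · rfl
            rw [sum_congr rfl fun e' _ => h4 e', ← sum_filter, sum_const, smul_eq_mul, mul_comm]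
            refine Nat.mul_le_mul_left _ (le_trans ?_ (hp (p (false, e))))
            refine card_le_card_of_injOn (fun e' => (true, e')) ?_ ?_
            · intro e' he'
              rw [mem_coe, mem_filter] at he' ⊢
              exact ⟨mem_univ _, he'.2.symm⟩
            · intro x _ y _ h
              exact congrArg Prod.snd h
        _ = _ := by rw [sum_const, card_univ, smul_eq_mul]
    exact Nat.le_of_mul_le_mul_left h3 h0

lemma card_position : (Fintype.card (Position n) : ℕ) ≤ n ^ 2 := by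
  have h1 : (Fintype.card (Position n) : ℝ) ≤ (n : ℝ) ^ 2 := by
    rw [Fintype.card_prod, Fintype.card_bool]
    push_cast
    rw [card_edge]
    nlinarith [(Nat.cast_nonneg n : (0 : ℝ) ≤ n)]
  exact_mod_cast h1

open Classical in
/-- One network. -/
lemma one_net {K W : Type} [Field K] [Fintype W] [Nonempty W] (T : Net K (Position n) Bool W)
    (a : W → K) (h1 : ∀ v, T.reads v ≤ 1) {ε c : ℝ} (hε : 0 < ε) (hc : 0 < c) (hn : 1 ≤ ε * n)
    {k : ℕ} (hk : 48 / (ε * c) ≤ k) (hkn : k ≤ n ^ 2)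
    (hno : ∀ x, Far ε x → T.value a x = 0)
    (hyes : c * (n.factorial * Fintype.card (Edge n → Bool)) ≤
      ∑ π : Equiv.Perm (Fin n),
        ((univ.filter fun G : Edge n → Bool => T.value a (pr π G) ≠ 0).card : ℝ)) :
    c / 2 ≤ ((4 / c + 1) * ((k + 1 : ℕ) * (Fintype.card W : ℝ) ^ 3)) ^ (k + 1) *
      (2 * (n.factorial * Real.exp (-(ε ^ 2 / 8 * (n : ℝ) ^ 2)))) := by
  have hn0 : (0 : ℝ) < n := by
    rcases Nat.eq_zero_or_pos n with h | h
    · rw [h] at hn; norm_num at hn
    · exact_mod_cast h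
  have hk0 : (0 : ℝ) < k := lt_of_lt_of_le (by positivity) hk
  have hk1 : 1 ≤ k := by exact_mod_cast hk0
  obtain ⟨θ, hθ⟩ : ∃ θ, θ = 2 * n ^ 2 / k + 1 := ⟨_, rfl⟩
  have hθk : 2 * n ^ 2 ≤ θ * k := by
    rw [hθ]
    have := Nat.div_add_mod (2 * n ^ 2) k
    have h2 := Nat.mod_lt (2 * n ^ 2) (by omega : 0 < k)
    nlinarith
  have hθr : (θ : ℝ) ≤ 3 * (n : ℝ) ^ 2 / k := by
    rw [hθ]
    push_cast
    have h2 : ((2 * n ^ 2 / k : ℕ) : ℝ) ≤ ((2 * n ^ 2 : ℕ) : ℝ) / k := Nat.cast_div_le
    push_cast at h2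
    have h3 : (1 : ℝ) ≤ (n : ℝ) ^ 2 / k := by
      rw [le_div_iff₀ hk0, one_mul]
      exact_mod_cast hkn
    calc _ ≤ 2 * (n : ℝ) ^ 2 / k + (n : ℝ) ^ 2 / k := by linarith
      _ = _ := by ring
  have hθ1 : 1 ≤ θ := by rw [hθ]; exact Nat.le_add_left 1 _
  obtain ⟨p, hp1, hp2⟩ := net_part T a h1 (θ := θ) (t := k + 1) hθ1 (by
    refine (Nat.add_le_add_right (Nat.mul_le_mul_left 2 card_position) θ).trans ?_
    rw [mul_add, mul_one]
    exact Nat.add_le_add_right hθk θ)
  obtain ⟨F, hF⟩ : ∃ F : ℝ, F = n.factorial := ⟨_, rfl⟩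
  have hF0 : 0 < F := by rw [hF]; exact_mod_cast n.factorial_pos
  obtain ⟨u, hu⟩ : ∃ u : ℝ, u = Fintype.card (Edge n → Bool) := ⟨_, rfl⟩
  have hu0 : 0 < u := by rw [hu]; exact_mod_cast Fintype.card_pos
  -- the bad permutations
  obtain ⟨bad, hbad⟩ : ∃ bad, bad = univ.filter fun π : Equiv.Perm (Fin n) =>
      ε / 2 * (n : ℝ) ^ 2 < ((coinc p π).card : ℝ) := ⟨_, rfl⟩
  have hbadc : (bad.card : ℝ) ≤ c / 4 * F := by
    have h2 : ((∑ π : Equiv.Perm (Fin n), (coinc p π).card : ℕ) : ℝ) ≤ F * (2 * θ) := by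
      rw [hF]
      exact_mod_cast sum_coinc p hp1
    have h3 : (bad.card : ℝ) * (ε / 2 * (n : ℝ) ^ 2) ≤
        ((∑ π : Equiv.Perm (Fin n), (coinc p π).card : ℕ) : ℝ) := by
      push_cast
      calc (bad.card : ℝ) * (ε / 2 * (n : ℝ) ^ 2) = ∑ _π ∈ bad, (ε / 2 * (n : ℝ) ^ 2) := by
            rw [sum_const, nsmul_eq_mul]
        _ ≤ ∑ π ∈ bad, ((coinc p π).card : ℝ) := sum_le_sum fun π hπ => by
            rw [hbad, mem_filter] at hπ
            exact hπ.2.le
        _ ≤ _ := sum_le_sum_of_subset_of_nonneg (subset_univ _) fun _ _ _ => Nat.cast_nonneg _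
    have h4 : (bad.card : ℝ) * (ε / 2 * (n : ℝ) ^ 2) ≤ F * (2 * (3 * (n : ℝ) ^ 2 / k)) :=
      h3.trans (h2.trans (mul_le_mul_of_nonneg_left (by linarith) hF0.le))
    have h5 : F * (2 * (3 * (n : ℝ) ^ 2 / k)) = (F * (12 / (ε * k))) * (ε / 2 * (n : ℝ) ^ 2) := by
      field_simp
      ring
    rw [h5] at h4
    have h6 := le_of_mul_le_mul_right h4 (by positivity)
    refine h6.trans ?_
    have h7 : 12 / (ε * k) ≤ c / 4 := by
      rw [div_le_iff₀ (by positivity)] at hk ⊢
      have : c / 4 * (ε * k) = (k * (ε * c)) / 4 := by ring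
      rw [this]
      linarith
    calc F * (12 / (ε * k)) ≤ F * (c / 4) := mul_le_mul_of_nonneg_left h7 hF0.le
      _ = _ := by ring
  -- the density bound
  obtain ⟨d, hd⟩ : ∃ d, d = Fintype.card W ^ 3 := ⟨_, rfl⟩
  have hd1 : 1 ≤ d := by rw [hd]; exact Nat.pow_pos Fintype.card_pos
  obtain ⟨tt, htt⟩ : ∃ tt : ℕ, tt = k + 1 := ⟨_, rfl⟩
  have htd : (1 : ℝ) ≤ (tt : ℝ) * d := by
    have h2 : 1 ≤ tt * d := Nat.mul_pos (by omega) hd1
    exact_mod_cast h2
  obtain ⟨M, hM⟩ : ∃ M : ℕ, M = ⌈4 * (tt * d) / c⌉₊ := ⟨_, rfl⟩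
  have hM0 : (4 * (tt * d) / c : ℝ) ≤ M := by rw [hM]; exact Nat.le_ceil _
  have hMpos : (0 : ℝ) < M := lt_of_lt_of_le (by positivity) hM0
  have hM1 : 1 ≤ M := by exact_mod_cast hMpos
  have hMu : (M : ℝ) ≤ (4 / c + 1) * (tt * d) := by
    have h2 : (M : ℝ) < 4 * (tt * d) / c + 1 := by
      rw [hM]; exact Nat.ceil_lt_add_one (by positivity)
    have h3 : (4 / c + 1) * ((tt : ℝ) * d) = 4 * (tt * d) / c + tt * d := by ring
    linarith
  have htdM : (tt : ℝ) * d / M ≤ c / 4 := by
    rw [div_le_iff₀ hMpos]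
    rw [div_le_iff₀ hc] at hM0
    linarith
  obtain ⟨Φ, hΦ⟩ : ∃ Φ : ℝ, Φ = 2 * (F * Real.exp (-(ε ^ 2 / 8 * (n : ℝ) ^ 2))) := ⟨_, rfl⟩
  have hΦ0 : 0 ≤ Φ := by rw [hΦ]; positivity
  have hgood : ∀ π : Equiv.Perm (Fin n), π ∉ bad →
      ((univ.filter fun G : Edge n → Bool => T.value a (pr π G) ≠ 0).card : ℝ) ≤
        u * (c / 4 + M ^ tt * Φ) := by
    intro π hπ
    rw [hbad, mem_filter, not_and] at hπ
    have hco := not_lt.mp (hπ (mem_univ _))
    subst htt
    have hdens := density (f := fun x => T.value a x) (d := d) p (fun j => by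
      rw [hd]
      exact hp2 j) (pr π) hM1
    rw [← hu] at hdens
    have hB : ((univ.filter fun b : Fin (k + 1) → Edge n → Bool =>
        T.value a (mixp p (pr π) b) ≠ 0).card : ℝ) ≤ u ^ (k + 1) * Φ := by
      have h2 : (univ.filter fun b : Fin (k + 1) → Edge n → Bool =>
          T.value a (mixp p (pr π) b) ≠ 0).card ≤
          (univ.filter fun b : Fin (k + 1) → Edge n → Bool =>
            ¬ Far ε (mixp p (pr π) b)).card := by
        refine card_le_card fun b hb => ?_
        rw [mem_filter] at hb ⊢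
        exact ⟨mem_univ _, fun hf => hb.2 (hno _ hf)⟩
      have h3 := fail_all p π hε hn hco
      rw [← hu] at h3
      calc _ ≤ ((univ.filter fun b : Fin (k + 1) → Edge n → Bool =>
            ¬ Far ε (mixp p (pr π) b)).card : ℝ) := by exact_mod_cast h2
        _ ≤ _ := h3
        _ = _ := by rw [hΦ, hF]; ring
    have h4 : ((univ.filter fun b : Fin (k + 1) → Edge n → Bool =>
        T.value a (mixp p (pr π) b) ≠ 0).card : ℝ) / u ^ (k + 1) ≤ Φ := by
      rw [div_le_iff₀ (pow_pos hu0 _), mul_comm]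
      exact hB
    have h5 : ((univ.filter fun G : Edge n → Bool => T.value a (pr π G) ≠ 0).card : ℝ) / u ≤
        c / 4 + M ^ (k + 1) * Φ := by
      refine hdens.trans (add_le_add htdM ?_)
      exact mul_le_mul_of_nonneg_left h4 (by positivity)
    rw [div_le_iff₀ hu0, mul_comm] at h5
    exact h5
  -- summation
  have hsum : ∑ π : Equiv.Perm (Fin n),
      ((univ.filter fun G : Edge n → Bool => T.value a (pr π G) ≠ 0).card : ℝ) ≤
      c / 4 * F * u + F * (u * (c / 4 + M ^ tt * Φ)) := by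
    calc _ ≤ ∑ π : Equiv.Perm (Fin n), ((if π ∈ bad then u else 0) +
          u * (c / 4 + M ^ tt * Φ)) := by
          refine sum_le_sum fun π _ => ?_
          split_ifs with h
          · have h2 : ((univ.filter fun G : Edge n → Bool => T.value a (pr π G) ≠ 0).card : ℝ) ≤
                u := by
              rw [hu]
              exact_mod_cast card_le_univ _
            have h3 : 0 ≤ u * (c / 4 + M ^ tt * Φ) := by positivity
            linarith
          · rw [zero_add]
            exact hgood π h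
      _ = (bad.card : ℝ) * u + F * (u * (c / 4 + M ^ tt * Φ)) := by
          rw [sum_add_distrib, sum_const, card_univ, Fintype.card_perm, Fintype.card_fin,
            nsmul_eq_mul, ← hF]
          congr 1
          rw [← sum_filter, sum_const, nsmul_eq_mul]
          congr 2
          congr 1
          ext π
          simp
      _ ≤ _ := by
          have := mul_le_mul_of_nonneg_right hbadc hu0.le
          linarith
  rw [← hF, ← hu] at hyes
  have h6 := hyes.trans hsum
  have h7 : c * (F * u) ≤ (c / 4 + (c / 4 + M ^ tt * Φ)) * (F * u) := by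
    refine h6.trans (le_of_eq ?_)
    ring
  have h8 := le_of_mul_le_mul_right h7 (mul_pos hF0 hu0)
  have h9 : c / 2 ≤ (M : ℝ) ^ tt * Φ := by linarith
  refine h9.trans ?_
  rw [← hF, ← hΦ, ← htt]
  refine mul_le_mul_of_nonneg_right (pow_le_pow_left₀ hMpos.le ?_ _) hΦ0
  have h10 : (d : ℝ) = (Fintype.card W : ℝ) ^ 3 := by rw [hd]; push_cast; rfl
  rw [← h10]
  exact hMu

/-- The lower bound. -/
theorem gi_lower (ε c : ℝ) (hε : 0 < ε) (hc : 0 < c) : ∃ D : ℕ, ∀ n : ℕ, D ≤ n →
    ∀ (R : Type) [Fintype R] [Nonempty R] (K W : R → Type) [∀ ρ, Field (K ρ)]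
      [∀ ρ, Fintype (W ρ)] (T : ∀ ρ, Net (K ρ) (Position n) Bool (W ρ)) (a : ∀ ρ, W ρ → K ρ),
      (∀ ρ v, (T ρ).reads v ≤ 1) →
      (∀ ρ x, Far ε x → (T ρ).value (a ρ) x = 0) →
      (∀ x, Isomorphic x → c * Nat.card R ≤ Nat.card {ρ // (T ρ).value (a ρ) x ≠ 0}) →
      ∃ ρ, 2 ^ n ^ 2 ≤ Fintype.card (W ρ) ^ D := by
  classical
  obtain ⟨k, hk⟩ : ∃ k : ℕ, k = ⌈48 / (ε * c)⌉₊ := ⟨_, rfl⟩
  have hk1 : 48 / (ε * c) ≤ k := by rw [hk]; exact Nat.le_ceil _
  have hk0 : (0 : ℝ) < k := lt_of_lt_of_le (by positivity) hk1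
  obtain ⟨C1, hC1⟩ : ∃ C1 : ℝ, C1 = ((4 / c + 1) * (k + 1 : ℕ)) ^ (k + 1) := ⟨_, rfl⟩
  have hC10 : 0 < C1 := by rw [hC1]; positivity
  -- thresholds
  obtain ⟨κ, hκ⟩ : ∃ κ : ℝ, κ = ε ^ 2 / 32 := ⟨_, rfl⟩
  have hκ0 : 0 < κ := by rw [hκ]; positivity
  obtain ⟨N1, hN1⟩ : ∃ N1 : ℕ, ∀ n : ℕ, N1 ≤ n → Real.log n ≤ κ * n := by
    have h1 := (Real.isLittleO_log_id_atTop.comp_tendsto tendsto_natCast_atTop_atTop).bound hκ0
    obtain ⟨N1, h2⟩ := Filter.eventually_atTop.mp h1
    refine ⟨N1, fun n hn => ?_⟩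
    have h3 := h2 n hn
    simp only [Function.comp, id, Real.norm_eq_abs, Nat.abs_cast] at h3
    exact (le_abs_self _).trans h3
  obtain ⟨N2, hN2⟩ : ∃ N2 : ℕ, 4 * C1 / c / κ ≤ N2 := ⟨_, Nat.le_ceil _⟩
  obtain ⟨N3, hN3⟩ : ∃ N3 : ℕ, 1 / ε ≤ N3 := ⟨_, Nat.le_ceil _⟩
  obtain ⟨D1, hD1⟩ : ∃ D1 : ℕ, 3 * (k + 1) / κ ≤ D1 := ⟨_, Nat.le_ceil _⟩
  refine ⟨N1 + N2 + N3 + k + D1 + 1, fun n hn R _ _ K W _ _ T a h1 hno hyes => ?_⟩
  have hn1 : 1 ≤ n := by omega
  have hnR : (1 : ℝ) ≤ n := by exact_mod_cast hn1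
  have hnε : 1 ≤ ε * n := by
    have h2 : 1 / ε ≤ (n : ℝ) := hN3.trans (by exact_mod_cast (by omega))
    rw [div_le_iff₀ hε] at h2
    linarith
  -- a network which accepts many pairs
  obtain ⟨ρ, hρ⟩ : ∃ ρ : R, c * (n.factorial * Fintype.card (Edge n → Bool)) ≤
      ∑ π : Equiv.Perm (Fin n), ((univ.filter fun G : Edge n → Bool =>
        (T ρ).value (a ρ) (pr π G) ≠ 0).card : ℝ) := by
    by_contra hcon
    push Not at hcon
    have h3 : ∑ ρ : R, ∑ π : Equiv.Perm (Fin n), ((univ.filter fun G : Edge n → Bool =>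
        (T ρ).value (a ρ) (pr π G) ≠ 0).card : ℝ) <
        Fintype.card R * (c * (n.factorial * Fintype.card (Edge n → Bool))) := by
      calc _ < ∑ _ρ : R, c * ((n.factorial : ℝ) * Fintype.card (Edge n → Bool)) :=
            sum_lt_sum_of_nonempty univ_nonempty (fun ρ _ => hcon ρ)
        _ = _ := by rw [sum_const, card_univ, nsmul_eq_mul]
    have h4 : ∑ ρ : R, ∑ π : Equiv.Perm (Fin n), ((univ.filter fun G : Edge n → Bool =>
        (T ρ).value (a ρ) (pr π G) ≠ 0).card : ℝ) =
        ∑ π : Equiv.Perm (Fin n), ∑ G : Edge n → Bool,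
          ((univ.filter fun ρ : R => (T ρ).value (a ρ) (pr π G) ≠ 0).card : ℝ) := by
      rw [sum_comm]
      refine sum_congr rfl fun π _ => ?_
      simp only [card_filter]
      push_cast
      exact sum_comm
    rw [h4] at h3
    have h5 : Fintype.card R * (c * ((n.factorial : ℝ) * Fintype.card (Edge n → Bool))) ≤
        ∑ π : Equiv.Perm (Fin n), ∑ G : Edge n → Bool,
          ((univ.filter fun ρ : R => (T ρ).value (a ρ) (pr π G) ≠ 0).card : ℝ) := by
      calc _ = ∑ _π : Equiv.Perm (Fin n), ∑ _G : Edge n → Bool, c * (Fintype.card R : ℝ) := by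
            rw [sum_const, sum_const, card_univ, card_univ, nsmul_eq_mul, nsmul_eq_mul,
              Fintype.card_perm, Fintype.card_fin]
            ring
        _ ≤ _ := by
            refine sum_le_sum fun π _ => sum_le_sum fun G _ => ?_
            have h6 := hyes _ (pr_iso π G)
            rw [Nat.card_eq_fintype_card, Nat.card_eq_fintype_card, Fintype.card_subtype] at h6
            exact h6
    linarith
  have hW : Nonempty (W ρ) := by
    by_contra hW
    rw [not_nonempty_iff] at hW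
    have h2 : ∀ π : Equiv.Perm (Fin n), ((univ.filter fun G : Edge n → Bool =>
        (T ρ).value (a ρ) (pr π G) ≠ 0).card : ℝ) = 0 := by
      intro π
      rw [Nat.cast_eq_zero, card_eq_zero, filter_eq_empty_iff]
      intro G _
      unfold Net.value
      simp
    rw [sum_congr rfl fun π _ => h2 π, sum_const_zero] at hρ
    have h3 : (0 : ℝ) < c * (n.factorial * Fintype.card (Edge n → Bool)) := by
      have e1 : (0 : ℝ) < n.factorial := by exact_mod_cast n.factorial_pos
      have e2 : (0 : ℝ) < Fintype.card (Edge n → Bool) := by exact_mod_cast Fintype.card_pos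
      positivity
    linarith
  refine ⟨ρ, ?_⟩
  obtain ⟨w, hw⟩ : ∃ w, w = Fintype.card (W ρ) := ⟨_, rfl⟩
  have hw1 : 1 ≤ w := by rw [hw]; exact Fintype.card_pos
  have hwR : (1 : ℝ) ≤ w := by exact_mod_cast hw1
  have key := one_net (T ρ) (a ρ) (h1 ρ) hε hc hnε hk1 (by nlinarith) (hno ρ) hρ
  rw [← hw] at key ⊢
  -- the factorial
  have hfac : (n.factorial : ℝ) ≤ Real.exp (κ * (n : ℝ) ^ 2) := by
    have e1 : (n.factorial : ℝ) ≤ (n : ℝ) ^ n := by exact_mod_cast Nat.factorial_le_pow n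
    have e2 : (n : ℝ) ^ n = Real.exp (n * Real.log n) := by
      rw [Real.exp_nat_mul, Real.exp_log (by linarith)]
    rw [e2] at e1
    refine e1.trans (Real.exp_le_exp.mpr ?_)
    have e3 := hN1 n (by omega)
    nlinarith
  have h10 : (n.factorial : ℝ) * Real.exp (-(ε ^ 2 / 8 * (n : ℝ) ^ 2)) ≤
      Real.exp (-(3 * κ * (n : ℝ) ^ 2)) := by
    calc _ ≤ Real.exp (κ * (n : ℝ) ^ 2) * Real.exp (-(ε ^ 2 / 8 * (n : ℝ) ^ 2)) :=
          mul_le_mul_of_nonneg_right hfac (Real.exp_nonneg _)
      _ = _ := by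
          rw [← Real.exp_add]
          congr 1
          rw [hκ]
          ring
  have h11 : ((4 / c + 1) * ((k + 1 : ℕ) * (w : ℝ) ^ 3)) ^ (k + 1) =
      C1 * (w : ℝ) ^ (3 * (k + 1)) := by
    rw [hC1, pow_mul, ← mul_pow]
    congr 1
    ring
  rw [h11] at key
  have h12 : c / 2 ≤ C1 * (w : ℝ) ^ (3 * (k + 1)) * (2 * Real.exp (-(3 * κ * (n : ℝ) ^ 2))) :=
    key.trans (mul_le_mul_of_nonneg_left (mul_le_mul_of_nonneg_left h10 (by norm_num))
      (by positivity))
  -- absorb the constants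
  have h13 : 4 * C1 / c ≤ Real.exp (2 * κ * (n : ℝ) ^ 2) := by
    have e1 : 4 * C1 / c ≤ κ * n := by
      have e2 : 4 * C1 / c / κ ≤ (n : ℝ) := hN2.trans (by exact_mod_cast (by omega))
      rw [div_le_iff₀ hκ0] at e2
      linarith
    have e3 := Real.add_one_le_exp (2 * κ * (n : ℝ) ^ 2)
    have e5 : (n : ℝ) ≤ (n : ℝ) ^ 2 := by nlinarith
    have e6 := mul_le_mul_of_nonneg_left e5 hκ0.le
    have e7 : 0 ≤ κ * (n : ℝ) ^ 2 := by positivity
    linarith
  have h14 : Real.exp (κ * (n : ℝ) ^ 2) ≤ (w : ℝ) ^ (3 * (k + 1)) := by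
    have e1 : c / 2 * Real.exp (3 * κ * (n : ℝ) ^ 2) ≤ C1 * (w : ℝ) ^ (3 * (k + 1)) * 2 := by
      have e2 := mul_le_mul_of_nonneg_right h12 (Real.exp_pos (3 * κ * (n : ℝ) ^ 2)).le
      refine e2.trans (le_of_eq ?_)
      rw [mul_assoc, mul_assoc 2, ← Real.exp_add, neg_add_cancel, Real.exp_zero, mul_one]
    have e3 : Real.exp (3 * κ * (n : ℝ) ^ 2) =
        Real.exp (2 * κ * (n : ℝ) ^ 2) * Real.exp (κ * (n : ℝ) ^ 2) := by
      rw [← Real.exp_add]; congr 1; ring
    rw [e3] at e1
    have e4 : c / 2 * (4 * C1 / c * Real.exp (κ * (n : ℝ) ^ 2)) ≤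
        C1 * (w : ℝ) ^ (3 * (k + 1)) * 2 := by
      refine le_trans ?_ e1
      exact mul_le_mul_of_nonneg_left (mul_le_mul_of_nonneg_right h13 (Real.exp_pos _).le)
        (by positivity)
    have e5 : c / 2 * (4 * C1 / c * Real.exp (κ * (n : ℝ) ^ 2)) =
        (2 * C1) * Real.exp (κ * (n : ℝ) ^ 2) := by
      field_simp
      ring
    rw [e5] at e4
    have e6 : (2 * C1) * Real.exp (κ * (n : ℝ) ^ 2) ≤ (2 * C1) * (w : ℝ) ^ (3 * (k + 1)) := by
      linarith
    exact le_of_mul_le_mul_left e6 (by positivity)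
  -- the conclusion
  have h15 : κ * (n : ℝ) ^ 2 ≤ (3 * (k + 1) : ℕ) * Real.log w := by
    rw [← Real.log_pow]
    exact (Real.le_log_iff_exp_le (by positivity)).mpr h14
  have hlogw : 0 ≤ Real.log w := Real.log_nonneg hwR
  have h16 : (n : ℝ) ^ 2 ≤ D1 * Real.log w := by
    have e1 : (n : ℝ) ^ 2 ≤ 3 * (k + 1) / κ * Real.log w := by
      push_cast at h15
      rw [div_mul_eq_mul_div, le_div_iff₀ hκ0]
      linarith
    exact e1.trans (mul_le_mul_of_nonneg_right hD1 hlogw)
  have h17 : (2 : ℝ) ^ n ^ 2 ≤ (w : ℝ) ^ (N1 + N2 + N3 + k + D1 + 1) := by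
    have e1 : (2 : ℝ) ^ n ^ 2 ≤ Real.exp ((n : ℝ) ^ 2) := by
      have e2 : Real.exp ((n : ℝ) ^ 2) = Real.exp 1 ^ n ^ 2 := by
        rw [← Real.exp_nat_mul]; push_cast; rw [mul_one]
      rw [e2]
      refine pow_le_pow_left₀ (by norm_num) ?_ _
      have := Real.add_one_le_exp 1
      linarith
    have e3 : Real.exp ((n : ℝ) ^ 2) ≤ Real.exp (D1 * Real.log w) := Real.exp_le_exp.mpr h16
    have e4 : Real.exp (D1 * Real.log w) = (w : ℝ) ^ D1 := by
      rw [Real.exp_nat_mul, Real.exp_log (by linarith)]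
    rw [e4] at e3
    exact e1.trans (e3.trans (pow_le_pow_right₀ hwR (by omega)))
  exact_mod_cast h17

open Classical in
/-- The upper bound: remember everything. -/
theorem gi_upper (n : ℕ) (hn : 2 ≤ n) :
    ∃ (T : Net ℚ (Position n) Bool (Position n → Bool)) (a : (Position n → Bool) → ℚ),
      T.Linear ∧ (∀ v, T.reads v = 1) ∧ ∀ x, (T.value a x ≠ 0 ↔ Isomorphic x) := by
  have hne : Nonempty (Position n) := by
    refine ⟨(false, ⟨s((⟨0, by omega⟩ : Fin n), (⟨1, by omega⟩ : Fin n)), ?_⟩)⟩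
    rw [Sym2.mk_isDiag_iff]
    intro h
    have := congrArg Fin.val h
    simp at this
  obtain ⟨T, h1, h2, -, h4⟩ := exists_product (K := ℚ) (V := Position n) (Al := Bool)
    (W := Position n → Bool) (fun v b y => if y v = b then 1 else 0)
  refine ⟨T, fun y => if Isomorphic y then 1 else 0, h1, h2, fun x => ?_⟩
  have h5 : T.value (fun y => if Isomorphic y then 1 else 0) x = if Isomorphic x then 1 else 0 := by
    unfold Net.value
    rw [sum_eq_single x]
    · rw [h4]
      simp
    · intro y _ hy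
      rw [h4]
      obtain ⟨v, hv⟩ : ∃ v, y v ≠ x v := by
        by_contra hcon
        push Not at hcon
        exact hy (funext hcon)
      rw [prod_eq_zero (mem_univ v) (by rw [if_neg hv]), mul_zero]
    · intro h
      exact absurd (mem_univ _) h
  rw [h5]
  split_ifs with h
  · simp [h]
  · simp [h]

end Pool.Agent.Q329.GT
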