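import Pool.Agent.Q329.GT.Xor
import Pool.Agent.Q329.GT.Defs
import Pool.Agent.TH700.PA.Density

/-! Mixtures of isomorphic pairs of graphs (helper329). -/

set_option autoImplicit false
set_option linter.unusedSectionVars false
set_option linter.unusedVariables false

open Finset Pool.Agent.TH700.PA

namespace Pool.Agent.Q329.GT

variable {n t : ℕ}

lemma diag_map (σ : Equiv.Perm (Fin n)) (e : Sym2 (Fin n)) : (Sym2.map σ e).IsDiag ↔ e.IsDiag := by
  induction e with
  | _ u v =>
    rw [Sym2.map_mk, Sym2.mk_isDiag_iff, Sym2.mk_isDiag_iff]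
    exact σ.injective.eq_iff

/-- the action on the pairs of vertices -/
def act (σ : Equiv.Perm (Fin n)) : Edge n ≃ Edge n where
  toFun e := ⟨Sym2.map σ e.1, fun h => e.2 ((diag_map σ _).1 h)⟩
  invFun e := ⟨Sym2.map σ.symm e.1, fun h => e.2 ((diag_map σ.symm _).1 h)⟩
  left_inv e := by
    apply Subtype.ext
    show Sym2.map σ.symm (Sym2.map σ e.1) = e.1
    rw [Sym2.map_map, Equiv.symm_comp_self, Sym2.map_id, id]
  right_inv e := by
    apply Subtype.ext
    show Sym2.map σ (Sym2.map σ.symm e.1) = e.1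
    rw [Sym2.map_map, Equiv.self_comp_symm, Sym2.map_id, id]

lemma mem_graph (x : Position n → Bool) (k : Bool) (e : Edge n) :
    e.1 ∈ (graph x k).edgeSet ↔ x (k, e) = true := by
  unfold graph
  rw [SimpleGraph.edgeSet_fromEdgeSet, Set.mem_diff, Set.mem_setOf_eq]
  constructor
  · rintro ⟨⟨h, hx⟩, -⟩
    exact hx
  · intro h
    exact ⟨⟨e.2, h⟩, e.2⟩

lemma errors_eq (x : Position n → Bool) (σ : Equiv.Perm (Fin n)) :
    errors x σ = (univ.filter fun e : Edge n => x (false, e) ≠ x (true, act σ e)).card := by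
  classical
  unfold errors
  rw [← Set.ncard_coe_finset, ← Set.ncard_image_of_injective _ Subtype.val_injective]
  congr 1
  ext e
  rw [Set.mem_setOf_eq, Set.mem_image]
  constructor
  · intro h
    have hd : ¬ e.IsDiag := by
      intro hd
      apply h
      constructor
      · intro h1
        exact absurd hd ((graph x false).not_isDiag_of_mem_edgeSet h1)
      · intro h1
        exact absurd ((diag_map σ e).2 hd) ((graph x true).not_isDiag_of_mem_edgeSet h1)
    refine ⟨⟨e, hd⟩, ?_, rfl⟩
    rw [mem_coe, mem_filter]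
    refine ⟨mem_univ _, fun heq => h ?_⟩
    have h1 := mem_graph x false ⟨e, hd⟩
    have h2 := mem_graph x true (act σ ⟨e, hd⟩)
    rw [← heq] at h2
    exact h1.trans h2.symm
  · rintro ⟨e', he', rfl⟩
    rw [mem_coe, mem_filter] at he'
    intro hiff
    have h1 := mem_graph x false e'
    have h2 := mem_graph x true (act σ e')
    have h3 : (x (false, e') = true) ↔ (x (true, act σ e') = true) := by
      rw [← h1, ← h2]
      exact hiff
    exact he'.2 (Bool.eq_iff_iff.mpr h3)

/-- the isomorphic pair of the graph `G` and its image under `π` -/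
def pr (π : Equiv.Perm (Fin n)) (G : Edge n → Bool) : Position n → Bool :=
  fun v => if v.1 = false then G v.2 else G ((act π).symm v.2)

lemma pr_iso (π : Equiv.Perm (Fin n)) (G : Edge n → Bool) : Isomorphic (pr π G) := by
  refine ⟨⟨π, ?_⟩⟩
  intro u v
  by_cases huv : u = v
  · subst huv
    constructor <;> intro h <;> exact absurd h (SimpleGraph.irrefl _)
  · have hd : ¬ (s(u, v) : Sym2 (Fin n)).IsDiag := by
      rw [Sym2.mk_isDiag_iff]
      exact huv
    have h1 := mem_graph (pr π G) false ⟨s(u, v), hd⟩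
    have h2 := mem_graph (pr π G) true (act π ⟨s(u, v), hd⟩)
    have h3 : pr π G (true, act π ⟨s(u, v), hd⟩) = pr π G (false, ⟨s(u, v), hd⟩) := by
      unfold pr
      simp
    rw [h3] at h2
    have h4 : ((act π ⟨s(u, v), hd⟩).1 : Sym2 (Fin n)) = s(π u, π v) := rfl
    rw [h4] at h2
    rw [← SimpleGraph.mem_edgeSet, ← SimpleGraph.mem_edgeSet]
    exact h2.trans h1.symm

/-- the pairs whose bits in the two graphs lie in the same part -/
def coinc (p : Position n → Fin t) (π : Equiv.Perm (Fin n)) : Finset (Edge n) :=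
  univ.filter fun e => p (false, e) = p (true, act π e)

/-- the two bits which the bijection `σ` compares -/
def ba (p : Position n → Fin t) (e : Edge n) : Fin t × Edge n := (p (false, e), e)

/-- the two bits which the bijection `σ` compares -/
def bb (p : Position n → Fin t) (π σ : Equiv.Perm (Fin n)) (e : Edge n) : Fin t × Edge n :=
  (p (true, act σ e), (act π).symm (act σ e))

lemma ba_inj (p : Position n → Fin t) : Function.Injective (ba p) := by
  intro e e' h
  exact congrArg Prod.snd h

lemma bb_inj (p : Position n → Fin t) (π σ : Equiv.Perm (Fin n)) :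
    Function.Injective (bb p π σ) := by
  intro e e' h
  have h1 := congrArg Prod.snd h
  exact (act σ).injective ((act π).symm.injective h1)

lemma same_coinc (p : Position n → Fin t) (π σ : Equiv.Perm (Fin n)) (e : Edge n)
    (h : ba p e = bb p π σ e) : e ∈ coinc p π := by
  have h1 := congrArg Prod.fst h
  have h2 := congrArg Prod.snd h
  have h3 : act π e = act σ e := by
    have h4 : e = (act π).symm (act σ e) := h2
    nth_rewrite 1 [h4]
    rw [Equiv.apply_symm_apply]
  unfold coinc
  rw [mem_filter]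
  refine ⟨mem_univ _, ?_⟩
  rw [h3]
  exact h1

/-- the errors of `σ` in the mixture -/
lemma errors_mix (p : Position n → Fin t) (π σ : Equiv.Perm (Fin n))
    (b : Fin t → Edge n → Bool) : errors (mixp p (pr π) b) σ =
      (univ.filter fun e : Edge n => (fun v : Fin t × Edge n => b v.1 v.2) (ba p e) ≠
        (fun v : Fin t × Edge n => b v.1 v.2) (bb p π σ e)).card := by
  rw [errors_eq]
  rfl

lemma card_edge : ((Fintype.card (Edge n) : ℕ) : ℝ) = (n : ℝ) * (n - 1) / 2 := by
  classical
  have h := Sym2.card_subtype_not_diag (α := Fin n)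
  rw [Fintype.card_fin] at h
  have h2 : Fintype.card (Edge n) = n.choose 2 := by
    rw [← h]
  rw [h2, Nat.cast_choose_two]

open Classical in
/-- The failures for one bijection. -/
lemma fail_one (p : Position n → Fin t) (π σ : Equiv.Perm (Fin n)) {ε : ℝ} (hε : 0 < ε)
    (hn : 1 ≤ ε * n) (hco : ((coinc p π).card : ℝ) ≤ ε / 2 * (n : ℝ) ^ 2) :
    ((univ.filter fun b : Fin t → Edge n → Bool =>
      (errors (mixp p (pr π) b) σ : ℝ) < (1 / 4 - ε) * (n : ℝ) ^ 2).card : ℝ) ≤
      2 * (Fintype.card (Edge n → Bool) : ℝ) ^ t * Real.exp (-(ε ^ 2 / 8 * (n : ℝ) ^ 2)) := by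
  have hn0 : (0 : ℝ) < n := by
    rcases Nat.eq_zero_or_pos n with h | h
    · rw [h] at hn; norm_num at hn
    · exact_mod_cast h
  obtain ⟨rk, hrk⟩ : ∃ rk : Fin t × Edge n → ℕ, Function.Injective rk :=
    ⟨fun v => (Fintype.equivFin (Fin t × Edge n) v : ℕ), fun v v' h =>
      (Fintype.equivFin (Fin t × Edge n)).injective (Fin.ext h)⟩
  obtain ⟨S1, hS1⟩ : ∃ S1, S1 = univ.filter fun e : Edge n => rk (ba p e) < rk (bb p π σ e) :=
    ⟨_, rfl⟩
  obtain ⟨S2, hS2⟩ : ∃ S2, S2 = univ.filter fun e : Edge n => rk (bb p π σ e) < rk (ba p e) :=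
    ⟨_, rfl⟩
  have hdisj : Disjoint S1 S2 := by
    rw [disjoint_left]
    intro e h1 h2
    rw [hS1, mem_filter] at h1
    rw [hS2, mem_filter] at h2
    omega
  have hcov : (Fintype.card (Edge n) : ℝ) ≤ S1.card + S2.card + (coinc p π).card := by
    have h1 : (univ : Finset (Edge n)) ⊆ (S1 ∪ S2) ∪ coinc p π := by
      intro e _
      rw [mem_union, mem_union]
      rcases lt_trichotomy (rk (ba p e)) (rk (bb p π σ e)) with h | h | h
      · exact Or.inl (Or.inl (by rw [hS1, mem_filter]; exact ⟨mem_univ _, h⟩))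
      · exact Or.inr (same_coinc p π σ e (hrk h))
      · exact Or.inl (Or.inr (by rw [hS2, mem_filter]; exact ⟨mem_univ _, h⟩))
    have h2 := (card_le_card h1).trans (card_union_le _ _)
    rw [card_union_of_disjoint hdisj, card_univ] at h2
    exact_mod_cast h2
  have hle1 : (S1.card : ℝ) ≤ (n : ℝ) ^ 2 := by
    have h1 : (S1.card : ℝ) ≤ Fintype.card (Edge n) := by exact_mod_cast card_le_univ S1
    rw [card_edge] at h1
    nlinarith
  have hle2 : (S2.card : ℝ) ≤ (n : ℝ) ^ 2 := by
    have h1 : (S2.card : ℝ) ≤ Fintype.card (Edge n) := by exact_mod_cast card_le_univ S2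
    rw [card_edge] at h1
    nlinarith
  -- the two tails
  have hcard : (2 : ℝ) ^ Fintype.card (Fin t × Edge n) =
      (Fintype.card (Edge n → Bool) : ℝ) ^ t := by
    rw [Fintype.card_fun, Fintype.card_bool, Fintype.card_prod, Fintype.card_fin]
    push_cast
    rw [← pow_mul, mul_comm]
  have t1 := tail rk hrk (ba p) (bb p π σ) S1 (fun e _ e' _ h => ba_inj p h)
    (fun e he => by rw [hS1, mem_filter] at he; exact he.2) (δ := ε / 4) (by linarith) hle1
  have t2 := tail rk hrk (bb p π σ) (ba p) S2 (fun e _ e' _ h => bb_inj p π σ h)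
    (fun e he => by rw [hS2, mem_filter] at he; exact he.2) (δ := ε / 4) (by linarith) hle2
  rw [hcard] at t1 t2
  have hexp : Real.exp (-(2 * (ε / 4) ^ 2 * (n : ℝ) ^ 2)) =
      Real.exp (-(ε ^ 2 / 8 * (n : ℝ) ^ 2)) := by congr 1; ring
  rw [hexp] at t1 t2
  -- every failure is a failure of one of the two
  have hsub : (univ.filter fun b : Fin t → Edge n → Bool =>
      (errors (mixp p (pr π) b) σ : ℝ) < (1 / 4 - ε) * (n : ℝ) ^ 2).card ≤
      (univ.filter fun y : Fin t × Edge n → Bool =>
        ((S1.filter fun e => y (ba p e) ≠ y (bb p π σ e)).card : ℝ) <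
          S1.card / 2 - ε / 4 * (n : ℝ) ^ 2).card +
      (univ.filter fun y : Fin t × Edge n → Bool =>
        ((S2.filter fun e => y (bb p π σ e) ≠ y (ba p e)).card : ℝ) <
          S2.card / 2 - ε / 4 * (n : ℝ) ^ 2).card := by
    refine le_trans ?_ (card_union_le _ _)
    refine card_le_card_of_injOn (fun b v => b v.1 v.2) ?_ ?_
    · intro b hb
      rw [mem_coe, mem_filter] at hb
      rw [mem_coe, mem_union, mem_filter, mem_filter]
      have h1 := hb.2
      rw [errors_mix] at h1
      by_contra hcon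
      rw [not_or] at hcon
      have c1 : (S1.card : ℝ) / 2 - ε / 4 * (n : ℝ) ^ 2 ≤
          ((S1.filter fun e => b (ba p e).1 (ba p e).2 ≠
            b (bb p π σ e).1 (bb p π σ e).2).card : ℝ) :=
        le_of_not_gt fun h => hcon.1 ⟨mem_univ _, h⟩
      have c2 : (S2.card : ℝ) / 2 - ε / 4 * (n : ℝ) ^ 2 ≤
          ((S2.filter fun e => b (bb p π σ e).1 (bb p π σ e).2 ≠
            b (ba p e).1 (ba p e).2).card : ℝ) :=
        le_of_not_gt fun h => hcon.2 ⟨mem_univ _, h⟩
      have h2 : (S1.filter fun e => b (ba p e).1 (ba p e).2 ≠ b (bb p π σ e).1 (bb p π σ e).2).card +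
          (S2.filter fun e => b (bb p π σ e).1 (bb p π σ e).2 ≠ b (ba p e).1 (ba p e).2).card ≤
          (univ.filter fun e : Edge n => b (ba p e).1 (ba p e).2 ≠
            b (bb p π σ e).1 (bb p π σ e).2).card := by
        rw [← card_union_of_disjoint (disjoint_filter_filter hdisj)]
        refine card_le_card fun e he => ?_
        rw [mem_union, mem_filter, mem_filter] at he
        rw [mem_filter]
        rcases he with he | he
        · exact ⟨mem_univ _, he.2⟩
        · exact ⟨mem_univ _, he.2.symm⟩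
      have h3 : ((S1.filter fun e => b (ba p e).1 (ba p e).2 ≠
            b (bb p π σ e).1 (bb p π σ e).2).card : ℝ) +
          ((S2.filter fun e => b (bb p π σ e).1 (bb p π σ e).2 ≠
            b (ba p e).1 (ba p e).2).card : ℝ) ≤
          ((univ.filter fun e : Edge n => b (ba p e).1 (ba p e).2 ≠
            b (bb p π σ e).1 (bb p π σ e).2).card : ℝ) := by exact_mod_cast h2
      rw [card_edge] at hcov
      nlinarith
    · intro b _ b' _ h
      funext j e
      exact congrFun h (j, e)
  have hsub' : ((univ.filter fun b : Fin t → Edge n → Bool =>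
      (errors (mixp p (pr π) b) σ : ℝ) < (1 / 4 - ε) * (n : ℝ) ^ 2).card : ℝ) ≤
      ((univ.filter fun y : Fin t × Edge n → Bool =>
        ((S1.filter fun e => y (ba p e) ≠ y (bb p π σ e)).card : ℝ) <
          S1.card / 2 - ε / 4 * (n : ℝ) ^ 2).card : ℝ) +
      ((univ.filter fun y : Fin t × Edge n → Bool =>
        ((S2.filter fun e => y (bb p π σ e) ≠ y (ba p e)).card : ℝ) <
          S2.card / 2 - ε / 4 * (n : ℝ) ^ 2).card : ℝ) := by exact_mod_cast hsub
  linarith

open Classical in
/-- The failures: mixtures which are not far. -/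
lemma fail_all (p : Position n → Fin t) (π : Equiv.Perm (Fin n)) {ε : ℝ} (hε : 0 < ε)
    (hn : 1 ≤ ε * n) (hco : ((coinc p π).card : ℝ) ≤ ε / 2 * (n : ℝ) ^ 2) :
    ((univ.filter fun b : Fin t → Edge n → Bool => ¬ Far ε (mixp p (pr π) b)).card : ℝ) ≤
      n.factorial * (2 * (Fintype.card (Edge n → Bool) : ℝ) ^ t *
        Real.exp (-(ε ^ 2 / 8 * (n : ℝ) ^ 2))) := by
  have h1 : (univ.filter fun b : Fin t → Edge n → Bool => ¬ Far ε (mixp p (pr π) b)) ⊆
      (univ : Finset (Equiv.Perm (Fin n))).biUnion fun σ =>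
        univ.filter fun b : Fin t → Edge n → Bool =>
          (errors (mixp p (pr π) b) σ : ℝ) < (1 / 4 - ε) * (n : ℝ) ^ 2 := by
    intro b hb
    rw [mem_filter] at hb
    have h2 := hb.2
    unfold Far at h2
    push Not at h2
    obtain ⟨σ, hσ⟩ := h2
    rw [mem_biUnion]
    exact ⟨σ, mem_univ _, by rw [mem_filter]; exact ⟨mem_univ _, hσ⟩⟩
  have h2 : ((univ.filter fun b : Fin t → Edge n → Bool => ¬ Far ε (mixp p (pr π) b)).card : ℝ) ≤
      ∑ σ : Equiv.Perm (Fin n), ((univ.filter fun b : Fin t → Edge n → Bool =>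
          (errors (mixp p (pr π) b) σ : ℝ) < (1 / 4 - ε) * (n : ℝ) ^ 2).card : ℝ) := by
    exact_mod_cast (card_le_card h1).trans card_biUnion_le
  refine h2.trans ((sum_le_sum fun σ _ => fail_one p π σ hε hn hco).trans (le_of_eq ?_))
  rw [sum_const, card_univ, Fintype.card_perm, Fintype.card_fin, nsmul_eq_mul]

end Pool.Agent.Q329.GT
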