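import Mathlib

/-! Sums over bits of products over the edges of a forest (helper329). -/

set_option autoImplicit false
set_option linter.unusedSectionVars false
set_option linter.unusedVariables false

open Finset

namespace Pool.Agent.Q329.GT

section

variable {β ι : Type} [Fintype β] [DecidableEq β] [DecidableEq ι]

/-- flipping one bit -/
def flipEquiv (c : β) : (β → Bool) ≃ (β → Bool) where
  toFun y := Function.update y c (!y c)
  invFun y := Function.update y c (!y c)
  left_inv y := by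
    funext d
    by_cases h : d = c
    · subst h; simp
    · simp [h]
  right_inv y := by
    funext d
    by_cases h : d = c
    · subst h; simp
    · simp [h]

lemma flip_self (c : β) (y : β → Bool) : flipEquiv c y c = !y c := by
  simp [flipEquiv]

lemma flip_ne {c d : β} (h : d ≠ c) (y : β → Bool) : flipEquiv c y d = y d := by
  simp [flipEquiv, h]

/-- The exponential moment: the equations are triangular. -/
lemma mgf (rk : β → ℕ) (hrk : Function.Injective rk) (a b : ι → β) (w : Bool → ℝ) (S : Finset ι)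
    (ha : Set.InjOn a S) (h : ∀ e ∈ S, rk (a e) < rk (b e)) :
    ∑ y : β → Bool, ∏ e ∈ S, w (xor (y (a e)) (y (b e))) =
      2 ^ Fintype.card β * ((w true + w false) / 2) ^ S.card := by
  classical
  revert ha h
  refine Finset.induction_on_min_value (fun e => rk (a e)) S ?_ ?_
  · intro _ _
    simp
  · intro e₀ s he₀ hmin ih ha h
    have ih' := ih (ha.mono (by simp)) (fun e he => h e (mem_insert_of_mem he))
    have h0 := h e₀ (mem_insert_self _ _)
    have hb0 : b e₀ ≠ a e₀ := fun hh => by rw [hh] at h0; exact lt_irrefl _ h0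
    have hF : ∀ y : β → Bool, ∏ e ∈ s, w (xor (flipEquiv (a e₀) y (a e)) (flipEquiv (a e₀) y (b e))) =
        ∏ e ∈ s, w (xor (y (a e)) (y (b e))) := by
      intro y
      refine prod_congr rfl fun e he => ?_
      have h1 : a e ≠ a e₀ := by
        intro hh
        have := ha (by simp [he]) (by simp) hh
        rw [this] at he
        exact he₀ he
      have h2 : b e ≠ a e₀ := by
        intro hh
        have h3 := h e (mem_insert_of_mem he)
        have h4 := hmin e he
        rw [hh] at h3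
        exact absurd h4 (not_le.mpr h3)
      rw [flip_ne h1, flip_ne h2]
    have hx : ∀ y : β → Bool, xor (flipEquiv (a e₀) y (a e₀)) (flipEquiv (a e₀) y (b e₀)) =
        !xor (y (a e₀)) (y (b e₀)) := by
      intro y
      rw [flip_self, flip_ne hb0]
      cases y (a e₀) <;> cases y (b e₀) <;> rfl
    have e1 : ∑ y : β → Bool, ∏ e ∈ insert e₀ s, w (xor (y (a e)) (y (b e))) =
        ∑ y : β → Bool, w (!xor (y (a e₀)) (y (b e₀))) *
          ∏ e ∈ s, w (xor (y (a e)) (y (b e))) := by
      rw [← Equiv.sum_comp (flipEquiv (a e₀))]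
      refine sum_congr rfl fun y _ => ?_
      rw [prod_insert he₀, hF, hx]
    have e2 : ∑ y : β → Bool, ∏ e ∈ insert e₀ s, w (xor (y (a e)) (y (b e))) =
        ∑ y : β → Bool, w (xor (y (a e₀)) (y (b e₀))) *
          ∏ e ∈ s, w (xor (y (a e)) (y (b e))) :=
      sum_congr rfl fun y _ => by rw [prod_insert he₀]
    have e3 : 2 * ∑ y : β → Bool, ∏ e ∈ insert e₀ s, w (xor (y (a e)) (y (b e))) =
        (w true + w false) * ∑ y : β → Bool, ∏ e ∈ s, w (xor (y (a e)) (y (b e))) := by
      rw [two_mul]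
      nth_rewrite 1 [e1]
      rw [e2, ← sum_add_distrib, mul_sum]
      refine sum_congr rfl fun y _ => ?_
      cases xor (y (a e₀)) (y (b e₀))
      · simp only [Bool.not_false]; ring
      · simp only [Bool.not_true]; ring
    rw [ih'] at e3
    rw [card_insert_of_notMem he₀, pow_succ]
    linarith

lemma half_le (x : ℝ) : (Real.exp (-x) + 1) / 2 ≤ Real.exp (-x / 2 + x ^ 2 / 8) := by
  have h := Real.cosh_le_exp_half_sq (x / 2)
  rw [Real.cosh_eq] at h
  have e1 : Real.exp (-x) = Real.exp (-x / 2) * Real.exp (-(x / 2)) := by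
    rw [← Real.exp_add]; congr 1; ring
  have e2 : (1 : ℝ) = Real.exp (-x / 2) * Real.exp (x / 2) := by
    rw [← Real.exp_add, ← Real.exp_zero]; congr 1; ring
  have e3 : (Real.exp (-x) + 1) / 2 =
      Real.exp (-x / 2) * ((Real.exp (x / 2) + Real.exp (-(x / 2))) / 2) := by
    nth_rewrite 1 [e2]
    rw [e1]; ring
  rw [e3, Real.exp_add]
  refine mul_le_mul_of_nonneg_left (h.trans (le_of_eq ?_)) (Real.exp_pos _).le
  congr 1; ring

/-- The tail bound. -/
lemma tail (rk : β → ℕ) (hrk : Function.Injective rk) (a b : ι → β) (S : Finset ι)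
    (ha : Set.InjOn a S) (h : ∀ e ∈ S, rk (a e) < rk (b e)) {N δ : ℝ} (hδ : 0 ≤ δ)
    (hN : (S.card : ℝ) ≤ N) :
    ((univ.filter fun y : β → Bool =>
      ((S.filter fun e => y (a e) ≠ y (b e)).card : ℝ) < S.card / 2 - δ * N).card : ℝ) ≤
      2 ^ Fintype.card β * Real.exp (-(2 * δ ^ 2 * N)) := by
  classical
  obtain ⟨l, hl⟩ : ∃ l : ℝ, l = 4 * δ := ⟨_, rfl⟩
  have hl0 : 0 ≤ l := by rw [hl]; linarith
  obtain ⟨w, hw⟩ : ∃ w : Bool → ℝ, w = fun c => if c = true then Real.exp (-l) else 1 := ⟨_, rfl⟩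
  have hw1 : w true = Real.exp (-l) := by rw [hw]; simp
  have hw0 : w false = 1 := by rw [hw]; simp
  have hm := mgf rk hrk a b w S ha h
  have hwpos : ∀ c, 0 ≤ w c := by
    intro c
    cases c
    · rw [hw0]; norm_num
    · rw [hw1]; exact (Real.exp_pos _).le
  have hprod : ∀ y : β → Bool, ∏ e ∈ S, w (xor (y (a e)) (y (b e))) =
      Real.exp (-l * ((S.filter fun e => y (a e) ≠ y (b e)).card : ℝ)) := by
    intro y
    have e1 : ∏ e ∈ S, w (xor (y (a e)) (y (b e))) =
        ∏ e ∈ S, if y (a e) ≠ y (b e) then Real.exp (-l) else 1 := by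
      refine prod_congr rfl fun e _ => ?_
      cases h1 : y (a e) <;> cases h2 : y (b e) <;> simp [hw0, hw1]
    rw [e1, prod_ite, prod_const, prod_const_one, mul_one, ← Real.exp_nat_mul]
    congr 1; ring
  obtain ⟨B, hB⟩ : ∃ B, B = univ.filter fun y : β → Bool =>
      ((S.filter fun e => y (a e) ≠ y (b e)).card : ℝ) < S.card / 2 - δ * N := ⟨_, rfl⟩
  rw [← hB]
  have h1 : (B.card : ℝ) * Real.exp (-l * (S.card / 2 - δ * N)) ≤
      ∑ y : β → Bool, ∏ e ∈ S, w (xor (y (a e)) (y (b e))) := by
    calc (B.card : ℝ) * Real.exp (-l * (S.card / 2 - δ * N)) =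
        ∑ _y ∈ B, Real.exp (-l * (S.card / 2 - δ * N)) := by rw [sum_const, nsmul_eq_mul]
      _ ≤ ∑ y ∈ B, ∏ e ∈ S, w (xor (y (a e)) (y (b e))) := by
          refine sum_le_sum fun y hy => ?_
          rw [hprod y]
          apply Real.exp_le_exp.mpr
          rw [hB] at hy
          have h2 := (mem_filter.mp hy).2
          nlinarith
      _ ≤ _ := sum_le_sum_of_subset_of_nonneg (subset_univ _)
          fun y _ _ => prod_nonneg fun e _ => hwpos _
  rw [hm, hw1, hw0] at h1
  have h2 : ((Real.exp (-l) + 1) / 2) ^ S.card ≤ Real.exp (S.card * (-l / 2 + l ^ 2 / 8)) := by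
    rw [Real.exp_nat_mul]
    exact pow_le_pow_left₀ (by positivity) (half_le l) _
  have h3 : (B.card : ℝ) * Real.exp (-l * (S.card / 2 - δ * N)) ≤
      2 ^ Fintype.card β * Real.exp (S.card * (-l / 2 + l ^ 2 / 8)) :=
    h1.trans (mul_le_mul_of_nonneg_left h2 (by positivity))
  have h4 : (B.card : ℝ) ≤ 2 ^ Fintype.card β * Real.exp (S.card * (-l / 2 + l ^ 2 / 8)) *
      Real.exp (l * (S.card / 2 - δ * N)) := by
    have h5 := mul_le_mul_of_nonneg_right h3 (Real.exp_pos (l * (S.card / 2 - δ * N))).le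
    rw [mul_assoc, ← Real.exp_add] at h5
    rw [show -l * ((S.card : ℝ) / 2 - δ * N) + l * (S.card / 2 - δ * N) = 0 by ring,
      Real.exp_zero, mul_one] at h5
    exact h5
  refine h4.trans ?_
  rw [mul_assoc, ← Real.exp_add]
  refine mul_le_mul_of_nonneg_left (Real.exp_le_exp.mpr ?_) (by positivity)
  rw [hl]
  have : δ ^ 2 * (S.card : ℝ) ≤ δ ^ 2 * N := mul_le_mul_of_nonneg_left hN (sq_nonneg _)
  nlinarith

end

end Pool.Agent.Q329.GT
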